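import Pool.Agent.H812R2.AP.Gamma

set_option autoImplicit false

/-! # MP_2b2a50_an: condition `(P_λ)` does not imply the `λ`-BAP for a Banach operator ideal

Over `ℝ` and over `ℂ`: there is one Banach space `X` (Davie's space without the approximation
property) which has the `λ`-BAP for no Banach operator ideal and no `λ`, while it satisfies `(P_1)`
for every Banach operator ideal in which the finite rank operators are dense (for instance the
approximable operators with the operator norm), and also for the ideal `Γ₂` of the operators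
factoring through a Hilbert space. -/

namespace Pool.Agent.Results.MP_2b2a50_an.BAPForIdeals

open Pool.Agent.H812R2.AP

theorem result (𝕜 : Type) [RCLike 𝕜] :
    ∃ (X : Type) (_ : NormedAddCommGroup X) (_ : NormedSpace 𝕜 X) (_ : CompleteSpace X),
      (∀ (𝒜 : BanachIdeal 𝕜) (lam : ℝ), ¬ HasBAP 𝒜 lam X) ∧
      (∀ 𝒜 : BanachIdeal 𝕜, FiniteRankDense 𝒜 → CondP 𝒜 1 X) ∧
      (FiniteRankDense (approximable 𝕜) ∧ CondP (approximable 𝕜) 1 X ∧
        ∀ lam : ℝ, ¬ HasBAP (approximable 𝕜) lam X) ∧
      (CondP (hilbertian 𝕜) 1 X ∧ ∀ lam : ℝ, ¬ HasBAP (hilbertian 𝕜) lam X) := by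
  obtain ⟨s⟩ := exists_sys
  exact ⟨s.XT 𝕜, inferInstance, inferInstance, inferInstance, fun 𝒜 lam => not_hasBAP s 𝒜 lam,
    fun 𝒜 h => condP_of_dense 𝒜 h _,
    ⟨approximable_dense, condP_of_dense _ approximable_dense _, fun lam => not_hasBAP s _ lam⟩,
    condP_hilbertian _, fun lam => not_hasBAP s _ lam⟩

end Pool.Agent.Results.MP_2b2a50_an.BAPForIdeals
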